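import Pool.Agent.X58.IV.Vol
import Pool.Agent.X58.IV.Forms

set_option autoImplicit false

/-!
# The number of the `n` in a class modulo `M` for which `n` and `n + 2` have no small prime factors
-/

namespace Pool.Agent.X58.RP

open Finset Filter Topology
open Pool.Agent.X58.IV

/-- all prime factors of `n` and of `n + 2` are larger than `X ^ (1 / r)` -/
def AlmostTwin (X r n : ℕ) : Prop :=
  ∀ p : ℕ, p.Prime → p ∣ n * (n + 2) → (X : ℝ) ^ (1 / (r : ℝ)) < p

/-- the two forms -/
def FM (M a : ℕ) : Finset (ℤ × ℤ) := {((M : ℤ), (a : ℤ)), ((M : ℤ), ((a + 2 : ℕ) : ℤ))}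

lemma FM_cop (M a : ℕ) (h : Nat.Coprime (a * (a + 2)) M) : ∀ L ∈ FM M a, IsCoprime L.1 L.2 := by
  have h1 : Nat.Coprime a M := Nat.Coprime.coprime_mul_right h
  have h2 : Nat.Coprime (a + 2) M := Nat.Coprime.coprime_mul_left h
  intro L hL
  unfold FM at hL
  rw [mem_insert, mem_singleton] at hL
  rcases hL with rfl | rfl
  · exact Nat.isCoprime_iff_coprime.2 h1.symm
  · exact Nat.isCoprime_iff_coprime.2 h2.symm

lemma FM_loc (M a : ℕ) (h : Nat.Coprime (a * (a + 2)) M) : Locally (FM M a) := by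
  have h1 : Nat.Coprime a M := Nat.Coprime.coprime_mul_right h
  have h2 : Nat.Coprime (a + 2) M := Nat.Coprime.coprime_mul_left h
  intro p hp
  haveI := Fact.mk hp
  by_cases hpM : p ∣ M
  · refine ⟨0, fun L hL hd => ?_⟩
    unfold FM at hL
    rw [mem_insert, mem_singleton] at hL
    rcases hL with rfl | rfl
    · have h3 : p ∣ a := by
        have : (p : ℤ) ∣ (a : ℤ) := by simpa using hd
        exact_mod_cast this
      have := Nat.dvd_gcd h3 hpM
      rw [h1] at this
      exact hp.one_lt.ne' (Nat.dvd_one.1 this)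
    · have h3 : p ∣ a + 2 := by
        have : (p : ℤ) ∣ ((a + 2 : ℕ) : ℤ) := by simpa using hd
        exact_mod_cast this
      have := Nat.dvd_gcd h3 hpM
      rw [h2] at this
      exact hp.one_lt.ne' (Nat.dvd_one.1 this)
  · have hM0 : (M : ZMod p) ≠ 0 := by
      intro h0
      exact hpM ((ZMod.natCast_eq_zero_iff _ _).1 h0)
    obtain ⟨t, ht1, ht2⟩ : ∃ t : ℕ, ¬ p ∣ t ∧ ¬ p ∣ t + 2 := by
      by_cases hp3 : p = 3
      · exact ⟨2, by rw [hp3]; norm_num, by rw [hp3]; norm_num⟩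
      · refine ⟨1, fun h => hp.one_lt.ne' (Nat.dvd_one.1 h), fun h => hp3 ?_⟩
        exact (Nat.prime_dvd_prime_iff_eq hp Nat.prime_three).1 h
    refine ⟨(((t : ZMod p) - a) * (M : ZMod p)⁻¹).val, fun L hL hd => ?_⟩
    have hv : (((((t : ZMod p) - a) * (M : ZMod p)⁻¹).val : ℕ) : ZMod p) =
        ((t : ZMod p) - a) * (M : ZMod p)⁻¹ := ZMod.natCast_zmod_val _
    have hd' := (ZMod.intCast_zmod_eq_zero_iff_dvd _ _).2 hd
    unfold FM at hL
    rw [mem_insert, mem_singleton] at hL
    rcases hL with rfl | rfl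
    · push_cast at hd'
      rw [hv] at hd'
      have e : (M : ZMod p) * (((t : ZMod p) - a) * (M : ZMod p)⁻¹) + a = t := by
        field_simp
        ring
      rw [e] at hd'
      exact ht1 ((ZMod.natCast_eq_zero_iff _ _).1 hd')
    · push_cast at hd'
      rw [hv] at hd'
      have e : (M : ZMod p) * (((t : ZMod p) - a) * (M : ZMod p)⁻¹) + (a + 2) = ((t + 2 : ℕ) : ZMod p) := by
        push_cast
        field_simp
        ring
      rw [e] at hd'
      exact ht2 ((ZMod.natCast_eq_zero_iff _ _).1 hd')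

open Classical in
/-- the lower bound -/
theorem count_ge (M : ℕ) (hM : 1 ≤ M) : ∃ (r₁ : ℕ) (c : ℝ), 2 ≤ r₁ ∧ 0 < c ∧ ∀ r : ℕ, r₁ ≤ r →
    ∀ᶠ X : ℕ in atTop, ∀ Z a : ℕ, Nat.Coprime (a * (a + 2)) M → a < M →
      c * X / Real.log X ^ 2 ≤
        (((Ioc Z (Z + X)).filter (fun n => AlmostTwin X r n ∧ n % M = a)).card : ℝ) := by
  obtain ⟨κ, c, hκ, hκ1, hc, hb⟩ := baseZ 2
  obtain ⟨B, X₀, hb⟩ := hb 0 1 one_pos
  have hM0 : (0 : ℝ) < M := by exact_mod_cast hM
  refine ⟨max 2 ⌈2 / κ⌉₊, c / (2 * M), le_max_left _ _, by positivity, fun r hr => ?_⟩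
  have hr0 : (0 : ℝ) < r := by
    have : 2 ≤ r := (le_max_left _ _).trans hr
    exact_mod_cast (by omega : 0 < r)
  have hrκ : 1 / (r : ℝ) ≤ κ / 2 := by
    have h1 : 2 / κ ≤ r := by
      refine (Nat.le_ceil _).trans ?_
      exact_mod_cast (le_max_right _ _).trans hr
    rw [div_le_iff₀ hκ] at h1
    rw [div_le_iff₀ hr0]
    linarith
  filter_upwards [eventually_ge_atTop (M * (X₀ + 3) + 4 * M ^ 2)] with X hX Z a hcop haM
  obtain ⟨X', hX'⟩ : ∃ X', X' = X / M - 1 := ⟨_, rfl⟩
  have hXM : X₀ + 3 ≤ X / M := by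
    rw [Nat.le_div_iff_mul_le (by omega)]
    nlinarith
  have hX'1 : X₀ + 2 ≤ X' := by omega
  have hXm : M * (X / M) ≤ X := Nat.mul_div_le _ _
  have hXlt : X < M * (X / M + 1) := by
    have := Nat.div_add_mod X M
    have h2 := Nat.mod_lt X (show M > 0 by omega)
    nlinarith
  have hX'X : X' ≤ X := by
    have : X / M ≤ X := Nat.div_le_self _ _
    omega
  have hhalf : (X : ℝ) / (2 * M) ≤ X' := by
    rw [div_le_iff₀ (by positivity)]
    have h1 : X ≤ X' * (2 * M) := by
      have h2 : X / M = X' + 1 := by omega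
      rw [h2] at hXlt
      nlinarith
    exact_mod_cast h1
  have hX0 : (0 : ℝ) < X := by
    have : 0 < X := by nlinarith
    exact_mod_cast this
  have hsq : (X : ℝ) ^ (1 / (r : ℝ)) ≤ (X' : ℝ) ^ κ := by
    have hX1 : (1 : ℝ) ≤ X := by
      have : 1 ≤ X := by nlinarith
      exact_mod_cast this
    have h4M : (2 * M : ℝ) ≤ (X : ℝ) ^ (1 / 2 : ℝ) := by
      have h5 : ((2 * M : ℝ)) = (((2 * M : ℝ)) ^ 2) ^ (1 / 2 : ℝ) := by
        rw [← Real.sqrt_eq_rpow, Real.sqrt_sq (by positivity)]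
      rw [h5]
      apply Real.rpow_le_rpow (by positivity) _ (by norm_num)
      have h6 : 4 * M ^ 2 ≤ X := by omega
      calc ((2 * M : ℝ)) ^ 2 = ((4 * M ^ 2 : ℕ) : ℝ) := by push_cast; ring
        _ ≤ X := by exact_mod_cast h6
    have h7 : (X : ℝ) ^ (1 / 2 : ℝ) ≤ X' := by
      refine le_trans ?_ hhalf
      rw [le_div_iff₀ (by positivity)]
      calc (X : ℝ) ^ (1 / 2 : ℝ) * (2 * M) ≤ (X : ℝ) ^ (1 / 2 : ℝ) * (X : ℝ) ^ (1 / 2 : ℝ) := by gcongr
        _ = X := by
          rw [← Real.rpow_add hX0]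
          norm_num
    calc (X : ℝ) ^ (1 / (r : ℝ)) ≤ (X : ℝ) ^ (κ / 2) := Real.rpow_le_rpow_of_exponent_le hX1 hrκ
      _ = ((X : ℝ) ^ (1 / 2 : ℝ)) ^ κ := by
          rw [← Real.rpow_mul hX0.le]
          congr 1
          ring
      _ ≤ (X' : ℝ) ^ κ := Real.rpow_le_rpow (by positivity) h7 hκ.le
  have hadm := adm_ZF (FM M a) 2 (card_le_two) (FM_cop M a hcop) (FM_loc M a hcop)
  have h1 := (hb X' (Z / M) (by omega) (ZF (FM M a)) hadm).1
  rw [sift_eq] at h1
  have h2 : ((Free (FM M a) κ (Z / M) X').card : ℝ) ≤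
      (((Ioc Z (Z + X)).filter (fun n => AlmostTwin X r n ∧ n % M = a)).card : ℝ) := by
    have : (Free (FM M a) κ (Z / M) X').card ≤
        ((Ioc Z (Z + X)).filter (fun n => AlmostTwin X r n ∧ n % M = a)).card := by
      apply card_le_card_of_injOn (fun k => M * k + a)
      · intro k hk
        rw [mem_coe, Free, mem_filter, mem_Ioc] at hk
        obtain ⟨⟨hk1, hk2⟩, hk3⟩ := hk
        rw [mem_coe, mem_filter, mem_Ioc]
        have hZ1 : M * (Z / M) ≤ Z := Nat.mul_div_le _ _
        have hZ2 : Z < M * (Z / M + 1) := by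
          have := Nat.div_add_mod Z M
          have h2 := Nat.mod_lt Z (show M > 0 by omega)
          nlinarith
        refine ⟨⟨?_, ?_⟩, ?_, ?_⟩
        · show Z < M * k + a
          have : M * (Z / M + 1) ≤ M * k := Nat.mul_le_mul_left _ hk1
          omega
        · show M * k + a ≤ Z + X
          have h3 : M * k ≤ M * (Z / M + X') := Nat.mul_le_mul_left _ hk2
          have h4 : M * (Z / M + X') = M * (Z / M) + M * X' := by ring
          have h5 : M * X' + M = M * (X / M) := by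
            have : X / M = X' + 1 := by omega
            rw [this]
            ring
          omega
        · intro p hp hd
          refine lt_of_le_of_lt hsq ?_
          rcases (Nat.Prime.dvd_mul hp).1 hd with h | h
          · refine hk3 ((M : ℤ), (a : ℤ)) (by simp [FM]) p hp ?_
            show (p : ℤ) ∣ (M : ℤ) * k + a
            exact_mod_cast h
          · refine hk3 ((M : ℤ), ((a + 2 : ℕ) : ℤ)) (by simp [FM]) p hp ?_
            show (p : ℤ) ∣ (M : ℤ) * k + ((a + 2 : ℕ) : ℤ)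
            have h3 : p ∣ M * k + (a + 2) := by
              rwa [← add_assoc]
            exact_mod_cast h3
        · show (M * k + a) % M = a
          rw [Nat.mul_add_mod, Nat.mod_eq_of_lt haM]
      · intro k _ k' _ he
        have h3 : M * k + a = M * k' + a := he
        have h4 : M * k = M * k' := by omega
        exact Nat.eq_of_mul_eq_mul_left (by omega) h4
    exact_mod_cast this
  refine le_trans ?_ (h1.trans h2)
  have hX'0 : (0 : ℝ) < X' := by exact_mod_cast (by omega : 0 < X')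
  have hlog0 : 0 < Real.log X' := Real.log_pos (by exact_mod_cast (by omega : 1 < X'))
  have hlog : Real.log X' ≤ Real.log X := Real.log_le_log hX'0 (by exact_mod_cast hX'X)
  calc c / (2 * M) * X / Real.log X ^ 2 = c * (X / (2 * M)) / Real.log X ^ 2 := by ring
    _ ≤ c * X' / Real.log X ^ 2 := by gcongr
    _ ≤ c * X' / Real.log X' ^ 2 := by gcongr

end Pool.Agent.X58.RP
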