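import Pool.Agent.X262.LOS.Small
import Pool.Agent.X262.LOS.Fix
import Pool.Agent.X58.RP.Count

set_option autoImplicit false

/-!
# The number of the almost twin pairs with given residues of the pair and of the next pairs

The proofs down to `main` are those of `MP_74f661_nt.ResiduePatterns` (helper262, in this run).
-/

namespace Pool.Agent.X58.RP

open Finset Filter

/-- the next almost twin pairs after `n` are, in this order, in the classes of the list -/
def NextClasses (X r M : ℕ) : List ℕ → ℕ → Prop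
  | [], _ => True
  | b :: bs, n => ∃ n' : ℕ, n < n' ∧ AlmostTwin X r n' ∧ n' % M = b ∧
      (∀ m : ℕ, n < m → m < n' → ¬ AlmostTwin X r m) ∧ NextClasses X r M bs n'

/-- the classes `c` modulo `M` for which `c` and `c + 2` are prime to `M` -/
def classes (M : ℕ) : Finset ℕ := (range M).filter (fun c => Nat.Coprime (c * (c + 2)) M)

open Classical in
/-- the number of the almost twin pairs `n` in `(Z, Z + Y]` in the class `a` modulo `M` -/
noncomputable def N1 (X r M a Z Y : ℕ) : ℕ :=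
  ((Ioc Z (Z + Y)).filter (fun n => AlmostTwin X r n ∧ n % M = a)).card

open Classical in
/-- the number of those for which the next pairs are in the classes of the list `bs` -/
noncomputable def N2 (X r M a : ℕ) (bs : List ℕ) (Z Y : ℕ) : ℕ :=
  ((Ioc Z (Z + Y)).filter
    (fun n => (AlmostTwin X r n ∧ n % M = a) ∧ NextClasses X r M bs n)).card

open Pool.Agent.X262.LOS Pool.Agent.H373R2.T7 Pool.Agent.W123.RP Pool.Agent.W123.RU
open Pool.Agent.TH464.PO

/-- the condition -/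
def Qw (M p n : ℕ) : Prop := ¬ p ∣ M ∧ p ∣ n * (n + 2)

lemma Qw_per (M p n : ℕ) : Qw M p n ↔ Qw M p (n % p) := by
  unfold Qw
  apply and_congr_right
  intro _
  have h : n * (n + 2) ≡ n % p * (n % p + 2) [MOD p] :=
    ((Nat.mod_modEq n p).symm).mul (((Nat.mod_modEq n p).symm).add_right 2)
  exact h.dvd_iff dvd_rfl

lemma Qw_few (M p : ℕ) (hp : p.Prime) : nuB (Qw M) p ≤ min 2 (p - 1) := by
  classical
  have h1 : (range p).filter (fun r => Qw M p r) ⊆ {0, p - 2} := by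
    intro r hr
    rw [mem_filter, mem_range] at hr
    rw [mem_insert, mem_singleton]
    rcases (Nat.Prime.dvd_mul hp).1 hr.2.2 with h | h
    · left
      exact Nat.eq_zero_of_dvd_of_lt h hr.1
    · have h2 := hp.two_le
      rcases Nat.eq_or_lt_of_le h2 with h3 | h3
      · left
        have : r = 0 ∨ r = 1 := by omega
        rcases this with h4 | h4
        · exact h4
        · rw [h4, ← h3] at h
          omega
      · right
        obtain ⟨k, hk⟩ := h
        have hk1 : k = 1 := by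
          rcases Nat.lt_trichotomy k 1 with h5 | h5 | h5
          · have : k = 0 := by omega
            rw [this] at hk
            omega
          · exact h5
          · have : p * 2 ≤ p * k := Nat.mul_le_mul_left p h5
            omega
        rw [hk1] at hk
        omega
  unfold nuB
  have h2 := card_le_card h1
  have h3 : ({0, p - 2} : Finset ℕ).card ≤ 2 := card_le_two
  have h4 : ((range p).filter (fun r => Qw M p r)).card ≤ p - 1 := by
    rcases Nat.eq_or_lt_of_le hp.two_le with h5 | h5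
    · have h6 : ({0, p - 2} : Finset ℕ) = {0} := by
        rw [← h5]
        rfl
      rw [h6, card_singleton] at h2
      omega
    · omega
  rw [le_min_iff]
  refine ⟨?_, ?_⟩
  · convert h2.trans h3
  · convert h4

lemma Qw_pos (M p : ℕ) (hp : p.Prime) (h : ¬ p ∣ M) : 1 ≤ nuB (Qw M) p := by
  classical
  unfold nuB
  rw [Nat.succ_le_iff, card_pos]
  exact ⟨0, by rw [mem_filter, mem_range]; exact ⟨hp.pos, h, by simp⟩⟩

lemma sy (M : ℕ) : Sc 2 M 3 (classes M) (Qw M) (fun t => t = 2) := by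
  have hcop : ∀ c, c % M ∈ classes M → Nat.Coprime (c * (c + 2)) M := by
    intro c hc
    unfold classes at hc
    rw [mem_filter] at hc
    have h3 : c * (c + 2) ≡ c % M * (c % M + 2) [MOD M] :=
      ((Nat.mod_modEq c M).symm).mul (((Nat.mod_modEq c M).symm).add_right 2)
    have h4 := h3.gcd_eq
    unfold Nat.Coprime at hc ⊢
    rw [h4]
    exact hc.2
  refine { per := ⟨Qw_per M, fun p hp => (Qw_few M p hp).trans (min_le_left _ _)⟩, adm := ?_,
           noM := ?_, exc := ?_, cls := filter_subset _ _ }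
  · intro p hp
    have := (Qw_few M p hp).trans (min_le_right _ _)
    have := hp.two_le
    omega
  · intro p hp n h
    exact h.1 hp
  · intro g a b ha hb hab hx
    have hb2 : b = a + 2 := by omega
    by_cases h3 : 3 ∣ M
    · exfalso
      have c1 := hcop _ ha
      have c2 := hcop _ hb
      rw [hb2] at c2
      have d1 : ¬ 3 ∣ (g + a) * (g + a + 2) := fun h =>
        absurd (Nat.dvd_gcd h h3) (by rw [c1]; decide)
      have d2 : ¬ 3 ∣ (g + (a + 2)) * (g + (a + 2) + 2) := fun h =>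
        absurd (Nat.dvd_gcd h h3) (by rw [c2]; decide)
      have e1 : ¬ 3 ∣ g + a := fun h => d1 (Dvd.dvd.mul_right h _)
      have e2 : ¬ 3 ∣ g + a + 2 := fun h => d1 (Dvd.dvd.mul_left h _)
      have e3 : ¬ 3 ∣ g + (a + 2) + 2 := fun h => d2 (Dvd.dvd.mul_left h _)
      omega
    · refine ⟨3, mem_pz.2 ⟨le_rfl, Nat.prime_three⟩, fun r => ?_⟩
      unfold Qw
      rw [hb2]
      have : 3 ∣ r + a ∨ 3 ∣ r + a + 2 ∨ 3 ∣ r + (a + 2) + 2 := by omega
      rcases this with h | h | h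
      · exact Or.inl ⟨h3, Dvd.dvd.mul_right h _⟩
      · exact Or.inl ⟨h3, Dvd.dvd.mul_left h _⟩
      · exact Or.inr ⟨h3, Dvd.dvd.mul_left h _⟩

lemma col (M y T t : ℕ) (_hT : 1 ≤ T) (ht : 1 ≤ t) (htT : t ≤ T) (_hx : ¬ t = 2) (S : Finset ℕ)
    (hS : S ⊆ pz y) (hcol : ∀ p ∈ S, T < p ∧ CoG (Qw M) p t) : S.card ≤ 1 := by
  have h3 : S ⊆ {t + 2} := by
    intro p hp
    rw [mem_singleton]
    have hpp := (mem_pz.1 (hS hp)).2
    obtain ⟨hTp, m, ⟨_, h4⟩, ⟨_, h5⟩⟩ := hcol p hp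
    have hno : ∀ s : ℕ, 0 < s → s ≤ t → ¬ p ∣ s := fun s h6 h7 h8 => by
      have := Nat.le_of_dvd h6 h8
      omega
    rcases (Nat.Prime.dvd_mul hpp).1 h4 with h6 | h6
    · rcases (Nat.Prime.dvd_mul hpp).1 h5 with h7 | h7
      · exact absurd ((Nat.dvd_add_right h6).1 h7) (hno t ht le_rfl)
      · rw [add_assoc] at h7
        obtain ⟨k, hk⟩ := (Nat.dvd_add_right h6).1 h7
        have hk1 : k = 1 := by
          rcases Nat.lt_trichotomy k 1 with h8 | h8 | h8
          · have : k = 0 := by omega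
            rw [this] at hk
            omega
          · exact h8
          · have : p * 2 ≤ p * k := Nat.mul_le_mul_left p h8
            omega
        rw [hk1] at hk
        omega
    · rcases (Nat.Prime.dvd_mul hpp).1 h5 with h7 | h7
      · rcases Nat.lt_or_ge t 2 with h8 | h8
        · have h9 : t = 1 := by omega
          rw [h9] at h7
          have h10 : p ∣ 1 := (Nat.dvd_add_right h7).1 (by
            rw [show m + 1 + 1 = m + 2 by ring]
            exact h6)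
          have := Nat.le_of_dvd one_pos h10
          have := hpp.two_le
          omega
        · have h9 : m + t = (m + 2) + (t - 2) := by omega
          rw [h9] at h7
          exact absurd ((Nat.dvd_add_right h6).1 h7) (hno (t - 2) (by omega) (by omega))
      · have h8 : m + t + 2 = (m + 2) + t := by ring
        rw [h8] at h7
        exact absurd ((Nat.dvd_add_right h6).1 h7) (hno t ht le_rfl)
  have := card_le_card h3
  rwa [card_singleton] at this

lemma good_iff (M X r n : ℕ) (hM : 1 ≤ M) (hMX : M ≤ ⌊(X : ℝ) ^ (1 / (r : ℝ))⌋₊) :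
    Gc (Qw M) ⌊(X : ℝ) ^ (1 / (r : ℝ))⌋₊ M (classes M) n ↔ AlmostTwin X r n := by
  obtain ⟨y, hy⟩ : ∃ y, y = ⌊(X : ℝ) ^ (1 / (r : ℝ))⌋₊ := ⟨_, rfl⟩
  rw [← hy] at hMX ⊢
  have hlt : ∀ p : ℕ, (X : ℝ) ^ (1 / (r : ℝ)) < p ↔ ¬ p ≤ y := by
    intro p
    rw [hy, not_le, Nat.floor_lt (by positivity)]
  have h3 : n * (n + 2) ≡ n % M * (n % M + 2) [MOD M] :=
    ((Nat.mod_modEq n M).symm).mul (((Nat.mod_modEq n M).symm).add_right 2)
  have h4 := h3.gcd_eq
  have hcl : n % M ∈ classes M ↔ Nat.Coprime (n * (n + 2)) M := by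
    unfold classes Nat.Coprime
    rw [mem_filter, mem_range, h4]
    exact ⟨fun h => h.2, fun h => ⟨Nat.mod_lt _ hM, h⟩⟩
  unfold Gc AlmostTwin Sf
  rw [hcl]
  constructor
  · rintro ⟨h1, h2⟩ p hp hd
    rw [hlt]
    intro hpy
    by_cases h5 : p ∣ M
    · have h6 := Nat.dvd_gcd hd h5
      rw [h2] at h6
      exact hp.one_lt.ne' (Nat.dvd_one.1 h6)
    · exact h1 p (mem_pz.2 ⟨hpy, hp⟩) ⟨h5, hd⟩
  · intro h
    constructor
    · rintro p hp ⟨_, hd⟩
      rw [mem_pz] at hp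
      exact (hlt p).1 (h p hp.2 hd) hp.1
    · apply Nat.Coprime.symm
      apply Nat.coprime_of_dvd
      intro p hp h5 h6
      exact (hlt p).1 (h p hp h6) ((Nat.le_of_dvd hM h5).trans hMX)

lemma nxs_iff (X r M : ℕ) (G : ℕ → Prop) (hG : ∀ n, G n ↔ AlmostTwin X r n) (bs : List ℕ) :
    ∀ n, Nxs G M bs n ↔ NextClasses X r M bs n := by
  induction bs with
  | nil => exact fun n => Iff.rfl
  | cons b bs ih =>
    intro n
    unfold Nxs NextClasses
    simp only [hG, ih]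

open Classical in
theorem main (M l : ℕ) (hM : 1 ≤ M) (ε θ : ℝ) (hε : 0 < ε) (hθ : 0 < θ) :
    ∃ r0 : ℕ, ∀ r : ℕ, r0 ≤ r → ∃ X0 : ℕ, ∀ X : ℕ, X0 ≤ X → ∀ Z Y : ℕ, (X : ℝ) ^ θ ≤ Y →
      ∀ a ∈ classes M, ∀ bs : List ℕ, bs.length = l → (∀ b ∈ bs, b ∈ classes M) →
        0 < N1 X r M a Z Y ∧
        |(N2 X r M a bs Z Y : ℝ) / N1 X r M a Z Y - 1 / ((classes M).card : ℝ) ^ l| ≤ ε := by
  obtain ⟨r0, hr0, h0⟩ := pat_fix 2 M 3 1 l (by norm_num) hM (classes M) (Qw M) (fun t => t = 2)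
    (sy M) (fun κ hκ => by
      obtain ⟨y1, hy1⟩ := V_small M hM κ hκ
      exact ⟨y1, fun y hy => hy1 y hy (Qw M) (Qw_pos M)⟩)
    (fun y T t' hT ht' ht'T hx S hS hS2 => col M y T t' hT ht' ht'T hx S hS hS2) ε θ hε hθ
  refine ⟨r0, fun r hr => ?_⟩
  have hr2 : 2 ≤ r := hr0.trans hr
  have hrr : (2 : ℝ) ≤ r := by exact_mod_cast hr2
  have hpow : Tendsto (fun X : ℕ => (X : ℝ) ^ (1 / (r : ℝ))) atTop atTop :=
    (tendsto_rpow_atTop (by positivity)).comp tendsto_natCast_atTop_atTop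
  obtain ⟨X0, hX0⟩ := eventually_atTop.1 ((h0 r hr).and (hpow.eventually_ge_atTop (M : ℝ)))
  refine ⟨X0, fun X hX Z Y hXY a ha bs hbs hbC => ?_⟩
  obtain ⟨h1, h2⟩ := hX0 X hX
  have hMX : M ≤ ⌊(X : ℝ) ^ (1 / (r : ℝ))⌋₊ := Nat.le_floor h2
  obtain ⟨h3, h4⟩ := h1 Z Y hXY a ha bs hbs hbC
  have hG : ∀ n, Gc (Qw M) ⌊(X : ℝ) ^ (1 / (r : ℝ))⌋₊ M (classes M) n ↔ AlmostTwin X r n :=
    fun n => good_iff M X r n hM hMX
  have hNx : ∀ n, Nxs (Gc (Qw M) ⌊(X : ℝ) ^ (1 / (r : ℝ))⌋₊ M (classes M)) M bs n ↔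
      NextClasses X r M bs n := nxs_iff X r M _ hG bs
  have e1 : N1 X r M a Z Y = ((Ioc Z (Z + Y)).filter
      (fun n => Gc (Qw M) ⌊(X : ℝ) ^ (1 / (r : ℝ))⌋₊ M (classes M) n ∧ n % M = a)).card := by
    unfold N1
    exact Pool.Agent.Y879.AP.card_iff _ _ (fun n _ => by rw [hG])
  have e2 : N2 X r M a bs Z Y = ((Ioc Z (Z + Y)).filter
      (fun n => (Gc (Qw M) ⌊(X : ℝ) ^ (1 / (r : ℝ))⌋₊ M (classes M) n ∧ n % M = a) ∧
        Nxs (Gc (Qw M) ⌊(X : ℝ) ^ (1 / (r : ℝ))⌋₊ M (classes M)) M bs n)).card := by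
    unfold N2
    exact Pool.Agent.Y879.AP.card_iff _ _ (fun n _ => by rw [hG, hNx])
  rw [← e1] at h3 h4
  rw [← e2] at h4
  have hN1 : (0 : ℝ) < N1 X r M a Z Y := by exact_mod_cast h3
  refine ⟨h3, ?_⟩
  have hq : ((classes M).card : ℝ) ^ l ≠ 0 := by
    apply pow_ne_zero
    have : 0 < (classes M).card := card_pos.2 ⟨a, ha⟩
    exact_mod_cast this.ne'
  have e : (N2 X r M a bs Z Y : ℝ) / N1 X r M a Z Y - 1 / ((classes M).card : ℝ) ^ l =
      ((N2 X r M a bs Z Y : ℝ) - N1 X r M a Z Y / ((classes M).card : ℝ) ^ l) / N1 X r M a Z Y := by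
    field_simp
  rw [e, abs_div, abs_of_pos hN1, div_le_iff₀ hN1]
  exact h4


open Classical in
/-- the lower bound -/
theorem low (M l : ℕ) (hM : 1 ≤ M) : ∃ (r₀ : ℕ) (c : ℝ), 2 ≤ r₀ ∧ 0 < c ∧ ∀ r : ℕ, r₀ ≤ r →
    ∀ᶠ X : ℕ in atTop, ∀ Z : ℕ, ∀ a ∈ classes M, ∀ bs : List ℕ, bs.length = l → (∀ b ∈ bs, b ∈ classes M) →
      c * X / Real.log X ^ 2 ≤ (N2 X r M a bs Z X : ℝ) := by
  obtain ⟨q, hq⟩ : ∃ q : ℕ, q = (classes M).card := ⟨_, rfl⟩
  have hq1 : (0 : ℝ) < (q + 1 : ℝ) ^ l := by positivity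
  obtain ⟨r0, h0⟩ := main M l hM (1 / (2 * (q + 1 : ℝ) ^ l)) 1 (by positivity) one_pos
  obtain ⟨r1, c, hr1, hc, h1⟩ := count_ge M hM
  refine ⟨max r0 r1, c / (2 * (q + 1 : ℝ) ^ l), hr1.trans (le_max_right _ _), by positivity, fun r hr => ?_⟩
  obtain ⟨X0, h2⟩ := h0 r ((le_max_left _ _).trans hr)
  filter_upwards [h1 r ((le_max_right _ _).trans hr), eventually_ge_atTop X0] with X hX hX0 Z a ha bs hbs hbC
  obtain ⟨h3, h4⟩ := h2 X hX0 Z X (by rw [Real.rpow_one]) a ha bs hbs hbC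
  have ha' := mem_filter.1 ha
  have h5 := hX Z a ha'.2 (mem_range.1 ha'.1)
  have h6 : ((((Ioc Z (Z + X)).filter (fun n => AlmostTwin X r n ∧ n % M = a)).card : ℕ) : ℝ) = N1 X r M a Z X := rfl
  rw [h6] at h5
  have hN1 : (0 : ℝ) < N1 X r M a Z X := by exact_mod_cast h3
  have hq0 : 0 < q := by rw [hq]; exact card_pos.2 ⟨a, ha⟩
  have hq0' : (0 : ℝ) < q := by exact_mod_cast hq0
  have h7 : 1 / (q + 1 : ℝ) ^ l ≤ 1 / ((classes M).card : ℝ) ^ l := by
    rw [← hq]
    apply one_div_le_one_div_of_le (by positivity)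
    gcongr
    linarith
  have h8 := (abs_le.1 h4).1
  have h9 : 1 / (2 * (q + 1 : ℝ) ^ l) ≤ (N2 X r M a bs Z X : ℝ) / N1 X r M a Z X := by
    have e : 1 / (q + 1 : ℝ) ^ l = 1 / (2 * (q + 1 : ℝ) ^ l) + 1 / (2 * (q + 1 : ℝ) ^ l) := by
      field_simp
      ring
    linarith
  rw [le_div_iff₀ hN1] at h9
  calc c / (2 * (q + 1 : ℝ) ^ l) * X / Real.log X ^ 2
      = 1 / (2 * (q + 1 : ℝ) ^ l) * (c * X / Real.log X ^ 2) := by ring
    _ ≤ 1 / (2 * (q + 1 : ℝ) ^ l) * N1 X r M a Z X := by gcongr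
    _ ≤ _ := h9

end Pool.Agent.X58.RP
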